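import Mathlib

/-!
Abstract inequality behind (I1): four coefficient sequences `D, Y, Z, X` with the interlacing
relations of consecutive coefficient polynomials of an even hyperbolic ternary form.
-/

open Finset

namespace Pool.Agent.Helper16.I1

/-- Antisymmetric partial sums. -/
theorem sum_antisymm (w : ℕ → ℝ) (M : ℕ) (hw : ∀ i ≤ M, w (M - i) = - w i) (x : ℕ) (hx : x ≤ M + 1) :
    ∑ i ∈ range x, w i = ∑ i ∈ range (M + 1 - x), w i := by
  have htot : ∑ i ∈ range (M + 1), w i = 0 := by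
    have h := Finset.sum_range_reflect w (M + 1)
    have h2 : ∑ j ∈ range (M + 1), w (M + 1 - 1 - j) = ∑ j ∈ range (M + 1), - w j := by
      refine Finset.sum_congr rfl fun j hj => ?_
      have : j ≤ M := by
        have := Finset.mem_range.1 hj; omega
      simpa using hw j this
    rw [h2, Finset.sum_neg_distrib] at h
    linarith
  -- split the total sum at x and reflect the tail
  have hsplit : ∑ i ∈ range (M + 1), w i = ∑ i ∈ range x, w i + ∑ i ∈ range (M + 1 - x), w (x + i) := by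
    rw [← Finset.sum_range_add w x (M + 1 - x)]
    congr 1
    congr 1
    omega
  have htail : ∑ i ∈ range (M + 1 - x), w (x + i) = - ∑ i ∈ range (M + 1 - x), w i := by
    rw [← Finset.sum_range_reflect (fun i => w (x + i)) (M + 1 - x), ← Finset.sum_neg_distrib]
    refine Finset.sum_congr rfl fun j hj => ?_
    have hj' := Finset.mem_range.1 hj
    have : x + (M + 1 - x - 1 - j) = M - j := by omega
    rw [this]
    exact hw j (by omega)
  rw [htail] at hsplit
  linarith

/-- `sh ρ D k = D k - ρ D (k-1)` with `D (-1) = 0`. -/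
def sh (ρ : ℝ) (D : ℕ → ℝ) : ℕ → ℝ
  | 0 => D 0
  | k + 1 => D (k + 1) - ρ * D k

/-- `conv Y Z n = ∑_{p+q=n} Y_p Z_q`. -/
def conv (Y Z : ℕ → ℝ) (n : ℕ) : ℝ := ∑ q ∈ range (n + 1), Z q * Y (n - q)

theorem conv_sub (Y Z : ℕ → ℝ) (ρ : ℝ) (n : ℕ) :
    conv Y Z (n + 1) - ρ * conv Y Z n = ∑ q ∈ range (n + 2), Z q * sh ρ Y (n + 1 - q) := by
  unfold conv
  rw [Finset.sum_range_succ _ (n + 1), Finset.sum_range_succ (fun q => Z q * sh ρ Y (n + 1 - q)) (n + 1)]
  have h1 : ∑ q ∈ range (n + 1), Z q * sh ρ Y (n + 1 - q)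
      = ∑ q ∈ range (n + 1), (Z q * Y (n + 1 - q) - ρ * (Z q * Y (n - q))) := by
    refine Finset.sum_congr rfl fun q hq => ?_
    have hq' := Finset.mem_range.1 hq
    have : n + 1 - q = (n - q) + 1 := by omega
    rw [this]
    simp only [sh]
    ring
  rw [h1, Finset.sum_sub_distrib, ← Finset.mul_sum]
  simp [sh]
  ring

/-- Data and relations. -/
structure Rel (D Y Z X : ℕ → ℝ) : Prop where
  D0 : ∀ m, 0 ≤ D m
  Y0 : ∀ m, 0 ≤ Y m
  Z0 : ∀ m, 0 ≤ Z m
  X0 : ∀ m, 0 ≤ X m
  DD : ∀ i l, i ≤ l → D i * D (l + 1) ≤ D (i + 1) * D l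
  DY : ∀ i l, i ≤ l → Y i * D l ≤ D i * Y l
  YD : ∀ i l, i ≤ l → D i * Y (l + 1) ≤ Y (i + 1) * D l
  r1 : ∀ m, X (m + 1) * D m ≤ Z (m + 1) * Y m
  r2 : ∀ m, X (m + 2) * D m ≤ Z (m + 1) * Y (m + 1)
  zD : ∀ m, D m = 0 → D (m + 1) = 0
  zY : ∀ m, D m = 0 → Y (m + 1) = 0
  zZ : ∀ m, D m = 0 → Z (m + 1) = 0
  zX : ∀ m, D m = 0 → X (m + 2) = 0

section core

variable {D Y Z X : ℕ → ℝ} (R : Rel D Y Z X) {ρ : ℝ} {n : ℕ}
  (hρ : 0 ≤ ρ) (hn : D (n + 1) = ρ * D n) (hρD : ∀ l ≤ n, ρ * D l ≤ D (l + 1))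
  (hρY : ∀ l ≤ n, ρ * Y l ≤ Y (l + 1))

include R hρ in
/-- bracket (A) -/
theorem brA (hρD : ∀ l ≤ n, ρ * D l ≤ D (l + 1)) (hρY : ∀ l ≤ n, ρ * Y l ≤ Y (l + 1))
    {i l : ℕ} (hil : i ≤ l) (hl : l ≤ n) :
    0 ≤ D i * sh ρ Y (l + 1) - Y i * sh ρ D (l + 1) := by
  simp only [sh]
  rcases (R.D0 l).eq_or_lt with h0 | hpos
  · have h1 := R.zD l h0.symm
    rw [h1, ← h0]
    have := mul_nonneg (R.D0 i) (sub_nonneg.2 (hρY l hl))
    simpa using this
  · rcases (R.Y0 l).eq_or_lt with hy0 | hypos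
    · -- Y l = 0, D l > 0: then Y i * D l ≤ D i * Y l = 0
      have h1 : Y i = 0 := by
        have h := R.DY i l hil
        rw [← hy0, mul_zero] at h
        have := R.Y0 i
        nlinarith
      rw [h1, ← hy0]
      have := mul_nonneg (R.D0 i) (sub_nonneg.2 (hρY l hl))
      rw [← hy0] at this
      simpa using this
    · have hA : 0 ≤ Y (l + 1) - ρ * Y l := sub_nonneg.2 (hρY l hl)
      have hB : 0 ≤ D (l + 1) - ρ * D l := sub_nonneg.2 (hρD l hl)
      have hAB : (D (l + 1) - ρ * D l) * Y l ≤ (Y (l + 1) - ρ * Y l) * D l := by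
        have := R.DY l (l + 1) (Nat.le_succ l)
        nlinarith
      have hil' := R.DY i l hil
      have h1 : (Y i * (D (l + 1) - ρ * D l)) * (D l * Y l) ≤ (D i * (Y (l + 1) - ρ * Y l)) * (D l * Y l) := by
        calc (Y i * (D (l + 1) - ρ * D l)) * (D l * Y l)
            = (Y i * D l) * ((D (l + 1) - ρ * D l) * Y l) := by ring
          _ ≤ (D i * Y l) * ((D (l + 1) - ρ * D l) * Y l) :=
              mul_le_mul_of_nonneg_right hil' (mul_nonneg hB (R.Y0 l))
          _ ≤ (D i * Y l) * ((Y (l + 1) - ρ * Y l) * D l) :=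
              mul_le_mul_of_nonneg_left hAB (mul_nonneg (R.D0 i) (R.Y0 l))
          _ = (D i * (Y (l + 1) - ρ * Y l)) * (D l * Y l) := by ring
      have := le_of_mul_le_mul_right h1 (mul_pos hpos hypos)
      linarith

include R hρ in
/-- bracket (B) -/
theorem brB (hρD : ∀ l ≤ n, ρ * D l ≤ D (l + 1)) (hρY : ∀ l ≤ n, ρ * Y l ≤ Y (l + 1))
    {i l : ℕ} (hil : i ≤ l) (hl : l + 1 ≤ n) :
    0 ≤ Y (i + 1) * sh ρ D (l + 1) - D i * sh ρ Y (l + 2) := by
  have e2 : sh ρ Y (l + 2) = Y (l + 2) - ρ * Y (l + 1) := rfl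
  have e1 : sh ρ D (l + 1) = D (l + 1) - ρ * D l := rfl
  rw [e1, e2]
  have hB : 0 ≤ D (l + 1) - ρ * D l := sub_nonneg.2 (hρD l (by omega))
  have hA : 0 ≤ Y (l + 2) - ρ * Y (l + 1) := sub_nonneg.2 (hρY (l + 1) hl)
  rcases (R.D0 l).eq_or_lt with h0 | hpos
  · have h1 := R.zD l h0.symm
    have h2 := R.zY l h0.symm
    have h3 := R.zY (l + 1) h1
    have h3' : Y (l + 2) = 0 := h3
    rw [h3', h2]
    have := mul_nonneg (R.Y0 (i + 1)) hB
    simpa using this
  · rcases (R.Y0 (l + 1)).eq_or_lt with hy0 | hypos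
    · -- Y (l+1) = 0
      have h1 : D i * Y (l + 2) ≤ 0 := by
        -- use YD at l: D l * Y (l+2) ≤ Y (l+1) * D (l+1) = 0, so Y (l+2) = 0
        have h := R.YD l (l + 1) (Nat.le_succ l)
        rw [← hy0, zero_mul] at h
        have h' : D l * Y (l + 2) ≤ 0 := h
        have hy2 : Y (l + 2) = 0 := by
          have := R.Y0 (l + 2)
          nlinarith
        rw [hy2, mul_zero]
      rw [← hy0]
      have := mul_nonneg (R.Y0 (i + 1)) hB
      nlinarith
    · have hAB : (Y (l + 2) - ρ * Y (l + 1)) * D l ≤ (D (l + 1) - ρ * D l) * Y (l + 1) := by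
        have h := R.YD l (l + 1) (Nat.le_succ l)
        have h' : D l * Y (l + 2) ≤ Y (l + 1) * D (l + 1) := h
        nlinarith
      have hil' := R.YD i l hil
      have h1 : (D i * (Y (l + 2) - ρ * Y (l + 1))) * (D l * Y (l + 1))
          ≤ (Y (i + 1) * (D (l + 1) - ρ * D l)) * (D l * Y (l + 1)) := by
        calc (D i * (Y (l + 2) - ρ * Y (l + 1))) * (D l * Y (l + 1))
            = (D i * Y (l + 1)) * ((Y (l + 2) - ρ * Y (l + 1)) * D l) := by ring
          _ ≤ (Y (i + 1) * D l) * ((Y (l + 2) - ρ * Y (l + 1)) * D l) :=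
              mul_le_mul_of_nonneg_right hil' (mul_nonneg hA (R.D0 l))
          _ ≤ (Y (i + 1) * D l) * ((D (l + 1) - ρ * D l) * Y (l + 1)) :=
              mul_le_mul_of_nonneg_left hAB (mul_nonneg (R.Y0 _) (R.D0 l))
          _ = (Y (i + 1) * (D (l + 1) - ρ * D l)) * (D l * Y (l + 1)) := by ring
      have := le_of_mul_le_mul_right h1 (mul_pos hpos hypos)
      linarith

/-- the transported mass -/
def mm (D Y : ℕ → ℝ) (ρ : ℝ) (n x : ℕ) : ℝ :=
  ∑ i ∈ range x, (D i * sh ρ Y (n - i) - Y i * sh ρ D (n - i))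

theorem W_sum (D Y : ℕ → ℝ) (M x : ℕ) (hx : x ≤ M + 1) :
    ∑ i ∈ range x, (D i * Y (M - i) - Y i * D (M - i))
      = ∑ i ∈ range (M + 1 - x), (D i * Y (M - i) - Y i * D (M - i)) := by
  refine sum_antisymm (fun i => D i * Y (M - i) - Y i * D (M - i)) M ?_ x hx
  intro i hi
  have : M - (M - i) = i := by omega
  simp only [this]
  ring

theorem V_sum (D Y : ℕ → ℝ) (M x : ℕ) (hx : x ≤ M + 1) :
    ∑ i ∈ range x, (Y (i + 1) * D (M - i) - D i * Y (M - i + 1))
      = ∑ i ∈ range (M + 1 - x), (Y (i + 1) * D (M - i) - D i * Y (M - i + 1)) := by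
  refine sum_antisymm (fun i => Y (i + 1) * D (M - i) - D i * Y (M - i + 1)) M ?_ x hx
  intro i hi
  have : M - (M - i) = i := by omega
  simp only [this]
  ring

theorem mm_eq (D Y : ℕ → ℝ) (ρ : ℝ) (n x : ℕ) (hx : x ≤ n + 1) :
    mm D Y ρ (n + 1) x = ∑ i ∈ range x, (D i * Y (n + 1 - i) - Y i * D (n + 1 - i))
      - ρ * ∑ i ∈ range x, (D i * Y (n - i) - Y i * D (n - i)) := by
  unfold mm
  rw [Finset.mul_sum, ← Finset.sum_sub_distrib]
  refine Finset.sum_congr rfl fun i hi => ?_
  have hi' := Finset.mem_range.1 hi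
  have : n + 1 - i = (n - i) + 1 := by omega
  rw [this]
  simp only [sh]
  ring

/-- reflection identity -/
theorem mm_refl (D Y : ℕ → ℝ) (ρ : ℝ) (n x : ℕ) (hx : x ≤ n) :
    mm D Y ρ n x = mm D Y ρ n (n - x) + (D (n - x) * Y x - Y (n - x) * D x) := by
  rcases n with _ | n
  · have : x = 0 := by omega
    subst this
    simp [mm]
    ring
  · rcases Nat.lt_or_ge x (n + 1) with h | h
    · rcases Nat.eq_zero_or_pos x with h0 | h0
      · subst h0
        -- mm (n+1) 0 = 0 = mm (n+1) (n+1) + W(n+1,0)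
        have h1 := mm_eq D Y ρ n (n + 1) le_rfl
        have h2 := W_sum D Y (n + 1) (n + 1) (by omega)
        have h3 := W_sum D Y n (n + 1) (by omega)
        simp only [Nat.sub_zero]
        rw [h1, h2, h3]
        simp [mm]
        ring
      · rw [mm_eq D Y ρ n x (by omega), mm_eq D Y ρ n (n + 1 - x) (by omega)]
        rw [W_sum D Y (n + 1) x (by omega), W_sum D Y n x (by omega)]
        have e1 : n + 1 + 1 - x = (n + 1 - x) + 1 := by omega
        have e2 : n + 1 - (n + 1 - x) = x := by omega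
        rw [e1, Finset.sum_range_succ, e2]
        ring
    · have : x = n + 1 := by omega
      subst this
      have h1 := mm_eq D Y ρ n (n + 1) le_rfl
      have h2 := W_sum D Y (n + 1) (n + 1) (by omega)
      have h3 := W_sum D Y n (n + 1) (by omega)
      rw [h1, h2, h3]
      simp [mm]

theorem mm_top (D Y : ℕ → ℝ) (ρ : ℝ) (n : ℕ) : mm D Y ρ n (n + 1) = 0 := by
  have h := mm_refl D Y ρ n n le_rfl
  unfold mm at h ⊢
  rw [Finset.sum_range_succ, h]
  simp [sh]
  ring

include R hρ in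
theorem mm_nonneg (hρD : ∀ l ≤ n, ρ * D l ≤ D (l + 1)) (hρY : ∀ l ≤ n, ρ * Y l ≤ Y (l + 1))
    {x : ℕ} (hx : x ≤ n) : 0 ≤ mm D Y ρ n x := by
  have key : ∀ y, 2 * y ≤ n + 1 → 0 ≤ mm D Y ρ n y := by
    intro y hy
    refine Finset.sum_nonneg fun i hi => ?_
    have hi' := Finset.mem_range.1 hi
    have e : n - i = (n - 1 - i) + 1 := by omega
    rw [e]
    exact brA R hρ hρD hρY (by omega) (by omega)
  rcases Nat.lt_or_ge (n + 1) (2 * x) with h | h
  · rw [mm_refl D Y ρ n x hx]
    have h1 := key (n - x) (by omega)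
    have h2 := R.DY (n - x) x (by omega)
    linarith
  · exact key x h

/-- the complementary mass -/
theorem gm_eq (D Y : ℕ → ℝ) (ρ : ℝ) (n x : ℕ) :
    Y x * sh ρ D (n - x) - mm D Y ρ n x
      = Y 0 * sh ρ D n + ∑ i ∈ range x, (Y (i + 1) * sh ρ D (n - (i + 1)) - D i * sh ρ Y (n - i)) := by
  induction x with
  | zero => simp [mm]
  | succ x ih =>
    have h1 : mm D Y ρ n (x + 1) = mm D Y ρ n x + (D x * sh ρ Y (n - x) - Y x * sh ρ D (n - x)) := by
      unfold mm
      rw [Finset.sum_range_succ]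
    rw [Finset.sum_range_succ, h1, ← add_assoc, ← ih]
    ring

theorem gm_refl (D Y : ℕ → ℝ) (ρ : ℝ) (n x : ℕ) (hx : x + 1 ≤ n) :
    Y x * sh ρ D (n - x) - mm D Y ρ n x
      = (Y (n - 1 - x) * sh ρ D (n - (n - 1 - x)) - mm D Y ρ n (n - 1 - x))
        + (Y (n - 1 - x + 1) * D x - D (n - 1 - x) * Y (x + 1)) := by
  obtain ⟨M, rfl⟩ : ∃ M, n = M + 1 := ⟨n - 1, by omega⟩
  have hxM : x ≤ M := by omega
  rw [gm_eq, gm_eq]
  have e0 : M + 1 - 1 - x = M - x := by omega
  rw [e0]
  -- express the sums for an index y ≤ M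
  have key : ∀ y ≤ M, ∑ i ∈ range y, (Y (i + 1) * sh ρ D (M + 1 - (i + 1)) - D i * sh ρ Y (M + 1 - i))
      = ∑ i ∈ range y, (Y (i + 1) * D (M - i) - D i * Y (M - i + 1))
        - ρ * ∑ i ∈ range y, (Y (i + 1) * D (M - 1 - i) - D i * Y (M - 1 - i + 1)) := by
    intro y hy
    rw [Finset.mul_sum, ← Finset.sum_sub_distrib]
    refine Finset.sum_congr rfl fun i hi => ?_
    have hi' := Finset.mem_range.1 hi
    have e1 : M + 1 - (i + 1) = (M - 1 - i) + 1 := by omega
    have e2 : M + 1 - i = (M - 1 - i + 1) + 1 := by omega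
    have e3 : M - i = M - 1 - i + 1 := by omega
    rw [e1, e2, e3]
    simp only [sh]
    ring
  rw [key x hxM, key (M - x) (by omega)]
  rw [V_sum D Y M x (by omega)]
  have e4 : M + 1 - x = (M - x) + 1 := by omega
  rw [e4, Finset.sum_range_succ]
  have e5 : M - (M - x) = x := by omega
  rw [e5]
  rcases Nat.eq_zero_or_pos M with h0 | h0
  · subst h0
    have : x = 0 := by omega
    subst this
    simp
  · have h3 := V_sum D Y (M - 1) x (by omega)
    have e6 : M - 1 + 1 - x = M - x := by omega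
    rw [e6] at h3
    rw [h3]
    ring

include R hρ in
theorem gm_nonneg (hρD : ∀ l ≤ n, ρ * D l ≤ D (l + 1)) (hρY : ∀ l ≤ n, ρ * Y l ≤ Y (l + 1))
    {x : ℕ} (hx : x ≤ n) : 0 ≤ Y x * sh ρ D (n - x) - mm D Y ρ n x := by
  have hY0 : 0 ≤ Y 0 * sh ρ D n := by
    rcases n with _ | n
    · exact mul_nonneg (R.Y0 0) (R.D0 0)
    · exact mul_nonneg (R.Y0 0) (sub_nonneg.2 (hρD n (by omega)))
  have key : ∀ y, 2 * y ≤ n → 0 ≤ Y y * sh ρ D (n - y) - mm D Y ρ n y := by
    intro y hy
    rw [gm_eq]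
    refine add_nonneg hY0 (Finset.sum_nonneg fun i hi => ?_)
    have hi' := Finset.mem_range.1 hi
    have e1 : n - (i + 1) = (n - 2 - i) + 1 := by omega
    have e2 : n - i = (n - 2 - i) + 2 := by omega
    rw [e1, e2]
    exact brB R hρ hρD hρY (by omega) (by omega)
  rcases Nat.lt_or_ge n (2 * x) with h | h
  · rcases Nat.lt_or_ge x n with h' | h'
    · rw [gm_refl D Y ρ n x (by omega)]
      have h1 := key (n - 1 - x) (by omega)
      have h2 := R.YD (n - 1 - x) x (by omega)
      linarith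
    · have : x = n := by omega
      subst this
      have h1 := mm_top D Y ρ x
      unfold mm at h1 ⊢
      rw [Finset.sum_range_succ] at h1
      have h2 : 0 ≤ D x * Y 0 := mul_nonneg (R.D0 x) (R.Y0 0)
      simp [sh] at h1 ⊢
      linarith
  · exact key x h

include R hρ hn in
theorem lr_core (hρD : ∀ l ≤ n, ρ * D l ≤ D (l + 1)) (hρY : ∀ l ≤ n, ρ * Y l ≤ Y (l + 1)) :
    0 ≤ (conv Y Z (n + 1) - conv D X (n + 1)) - ρ * (conv Y Z n - conv D X n) := by
  have hd : ∀ k ≤ n + 1, 0 ≤ sh ρ D k := by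
    intro k hk
    rcases k with _ | k
    · exact R.D0 0
    · exact sub_nonneg.2 (hρD k (by omega))
  have hu : ∀ k ≤ n + 1, 0 ≤ sh ρ Y k := by
    intro k hk
    rcases k with _ | k
    · exact R.Y0 0
    · exact sub_nonneg.2 (hρY k (by omega))
  have e : (conv Y Z (n + 1) - conv D X (n + 1)) - ρ * (conv Y Z n - conv D X n)
      = (conv Y Z (n + 1) - ρ * conv Y Z n) - (conv D X (n + 1) - ρ * conv D X n) := by ring
  rw [e, conv_sub, conv_sub]
  rw [Finset.sum_range_succ' (fun q => Z q * sh ρ Y (n + 1 - q)), Finset.sum_range_succ' (fun q => X q * sh ρ D (n + 1 - q))]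
  have hz0 : 0 ≤ Z 0 * sh ρ Y (n + 1 - 0) := mul_nonneg (R.Z0 0) (hu _ (by omega))
  have hx0 : X 0 * sh ρ D (n + 1 - 0) = 0 := by
    simp [sh, hn]
  rw [hx0]
  -- the main estimate
  have hstep : ∀ i ≤ n, X (i + 1) * sh ρ D (n - i)
      ≤ Z (i + 1) / D i * (Y i * sh ρ D (n - i) - mm D Y ρ n i) + (if i = 0 then 0 else Z i / D (i - 1) * mm D Y ρ n i) := by
    intro i hi
    have hdi : 0 ≤ sh ρ D (n - i) := hd _ (by omega)
    have hm := mm_nonneg R hρ hρD hρY hi
    have hg := gm_nonneg R hρ hρD hρY hi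
    rcases (R.D0 i).eq_or_lt with h0 | hpos
    · -- D i = 0
      have hZ : Z (i + 1) = 0 := R.zZ i h0.symm
      rcases Nat.eq_zero_or_pos i with hi0 | hi0
      · subst hi0
        -- all D vanish
        have hall : ∀ k, D k = 0 := by
          intro k
          induction k with
          | zero => exact h0.symm
          | succ k ih => exact R.zD k ih
        have hs : sh ρ D (n - 0) = 0 := by
          rcases n with _ | n
          · simp [sh, hall]
          · simp [sh, hall]
        rw [hs, hZ]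
        simp
      · rw [if_neg (by omega), hZ, zero_div, zero_mul, zero_add]
        obtain ⟨k, rfl⟩ : ∃ k, i = k + 1 := ⟨i - 1, by omega⟩
        simp only [Nat.add_sub_cancel]
        rcases (R.D0 k).eq_or_lt with hk0 | hkpos
        · have hX : X (k + 2) = 0 := R.zX k hk0.symm
          have hX' : X (k + 1 + 1) = 0 := hX
          rw [hX', zero_mul]
          exact mul_nonneg (div_nonneg (R.Z0 _) (R.D0 _)) hm
        · -- m = g
          have hmg : mm D Y ρ n (k + 1) = Y (k + 1) * sh ρ D (n - (k + 1)) := by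
            have htop := mm_top D Y ρ n
            have hall : ∀ t, D (k + 1 + t) = 0 := by
              intro t
              induction t with
              | zero => exact h0.symm
              | succ t ih => exact R.zD _ ih
            have hallY : ∀ t, Y (k + 1 + (t + 1)) = 0 := by
              intro t
              exact R.zY _ (hall t)
            have hsplit : mm D Y ρ n (n + 1) = mm D Y ρ n (k + 1)
                + ∑ t ∈ range (n - k), (D (k + 1 + t) * sh ρ Y (n - (k + 1 + t)) - Y (k + 1 + t) * sh ρ D (n - (k + 1 + t))) := by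
              unfold mm
              have : n + 1 = (k + 1) + (n - k) := by omega
              rw [this, Finset.sum_range_add]
            have hpos' : n - k = (n - k - 1) + 1 := by omega
            rw [hpos', Finset.sum_range_succ'] at hsplit
            have hz : ∑ t ∈ range (n - k - 1), (D (k + 1 + (t + 1)) * sh ρ Y (n - (k + 1 + (t + 1)))
                - Y (k + 1 + (t + 1)) * sh ρ D (n - (k + 1 + (t + 1)))) = 0 := by
              refine Finset.sum_eq_zero fun t _ => ?_
              rw [hall (t + 1), hallY t]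
              ring
            rw [hz, htop] at hsplit
            simp only [add_zero, zero_add] at hsplit
            rw [← h0] at hsplit
            linarith
          rw [hmg]
          have hr := R.r2 k
          rw [div_mul_eq_mul_div, le_div_iff₀ hkpos]
          have hr' : X (k + 1 + 1) * D k ≤ Z (k + 1) * Y (k + 1) := hr
          calc X (k + 1 + 1) * sh ρ D (n - (k + 1)) * D k = (X (k + 1 + 1) * D k) * sh ρ D (n - (k + 1)) := by ring
            _ ≤ (Z (k + 1) * Y (k + 1)) * sh ρ D (n - (k + 1)) := mul_le_mul_of_nonneg_right hr' hdi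
            _ = Z (k + 1) * (Y (k + 1) * sh ρ D (n - (k + 1))) := by ring
    · -- D i > 0
      have hr1 := R.r1 i
      rcases (R.Y0 i).eq_or_lt with hy0 | hypos
      · have hX : X (i + 1) = 0 := by
          rw [← hy0, mul_zero] at hr1
          have := R.X0 (i + 1)
          nlinarith
        rw [hX, zero_mul]
        refine add_nonneg (mul_nonneg (div_nonneg (R.Z0 _) (R.D0 _)) hg) ?_
        split_ifs
        · exact le_rfl
        · exact mul_nonneg (div_nonneg (R.Z0 _) (R.D0 _)) hm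
      · have hb1 : X (i + 1) / Y i ≤ Z (i + 1) / D i := by
          rw [div_le_div_iff₀ hypos hpos]
          linarith
        rcases Nat.eq_zero_or_pos i with hi0 | hi0
        · subst hi0
          have hm0 : mm D Y ρ n 0 = 0 := by simp [mm]
          rw [hm0, if_pos rfl, add_zero, sub_zero]
          calc X (0 + 1) * sh ρ D (n - 0) = X (0 + 1) / Y 0 * (Y 0 * sh ρ D (n - 0)) := by
                field_simp
            _ ≤ Z (0 + 1) / D 0 * (Y 0 * sh ρ D (n - 0)) :=
                mul_le_mul_of_nonneg_right hb1 (mul_nonneg (R.Y0 0) hdi)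
        · rw [if_neg (by omega)]
          obtain ⟨k, rfl⟩ : ∃ k, i = k + 1 := ⟨i - 1, by omega⟩
          simp only [Nat.add_sub_cancel]
          have hkpos : 0 < D k := by
            rcases (R.D0 k).eq_or_lt with hk0 | hk0
            · have := R.zD k hk0.symm
              linarith
            · exact hk0
          have hr2 := R.r2 k
          have hr2' : X (k + 1 + 1) * D k ≤ Z (k + 1) * Y (k + 1) := hr2
          have hb2 : X (k + 1 + 1) / Y (k + 1) ≤ Z (k + 1) / D k := by
            rw [div_le_div_iff₀ hypos hkpos]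
            linarith
          calc X (k + 1 + 1) * sh ρ D (n - (k + 1))
              = X (k + 1 + 1) / Y (k + 1) * (Y (k + 1) * sh ρ D (n - (k + 1)) - mm D Y ρ n (k + 1))
                + X (k + 1 + 1) / Y (k + 1) * mm D Y ρ n (k + 1) := by
                field_simp
                ring
            _ ≤ Z (k + 1 + 1) / D (k + 1) * (Y (k + 1) * sh ρ D (n - (k + 1)) - mm D Y ρ n (k + 1))
                + Z (k + 1) / D k * mm D Y ρ n (k + 1) :=
                add_le_add (mul_le_mul_of_nonneg_right hb1 hg) (mul_le_mul_of_nonneg_right hb2 hm)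
  have hsum : ∑ i ∈ range (n + 1), X (i + 1) * sh ρ D (n - i)
      ≤ ∑ i ∈ range (n + 1), Z (i + 1) * sh ρ Y (n - i) := by
    have h1 : ∑ i ∈ range (n + 1), X (i + 1) * sh ρ D (n - i)
        ≤ ∑ i ∈ range (n + 1), (Z (i + 1) / D i * (Y i * sh ρ D (n - i) - mm D Y ρ n i)
          + (if i = 0 then 0 else Z i / D (i - 1) * mm D Y ρ n i)) :=
      Finset.sum_le_sum fun i hi => hstep i (by have := Finset.mem_range.1 hi; omega)
    refine h1.trans (le_of_eq ?_)
    rw [Finset.sum_add_distrib]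
    -- second sum: shift
    have h2 : ∑ i ∈ range (n + 1), (if i = 0 then 0 else Z i / D (i - 1) * mm D Y ρ n i)
        = ∑ i ∈ range (n + 1), Z (i + 1) / D i * mm D Y ρ n (i + 1) := by
      rw [Finset.sum_range_succ', Finset.sum_range_succ _ n, mm_top]
      simp
    rw [h2, ← Finset.sum_add_distrib]
    refine Finset.sum_congr rfl fun i hi => ?_
    have h3 : mm D Y ρ n (i + 1) = mm D Y ρ n i + (D i * sh ρ Y (n - i) - Y i * sh ρ D (n - i)) := by
      unfold mm
      rw [Finset.sum_range_succ]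
    rw [h3]
    rcases (R.D0 i).eq_or_lt with h0 | hpos
    · have hZ : Z (i + 1) = 0 := R.zZ i h0.symm
      rw [hZ]
      simp
    · field_simp
      ring
  have e1 : ∀ i ∈ range (n + 1), X (i + 1) * sh ρ D (n + 1 - (i + 1)) = X (i + 1) * sh ρ D (n - i) := by
    intro i _
    have : n + 1 - (i + 1) = n - i := by omega
    rw [this]
  have e2 : ∀ i ∈ range (n + 1), Z (i + 1) * sh ρ Y (n + 1 - (i + 1)) = Z (i + 1) * sh ρ Y (n - i) := by
    intro i _
    have : n + 1 - (i + 1) = n - i := by omega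
    rw [this]
  rw [Finset.sum_congr rfl e1, Finset.sum_congr rfl e2]
  linarith

end core

/-- `hh n = [β^n] (Y Z - D X)`. -/
def hh (D Y Z X : ℕ → ℝ) (n : ℕ) : ℝ := conv Y Z n - conv D X n

theorem hh_nonneg {D Y Z X : ℕ → ℝ} (R : Rel D Y Z X) (n : ℕ) (h0 : D (n + 1) = 0) :
    0 ≤ hh D Y Z X (n + 1) := by
  have h := lr_core R (ρ := 0) (n := n) le_rfl (by simpa using h0)
    (fun l _ => by simpa using R.D0 (l + 1)) (fun l _ => by simpa using R.Y0 (l + 1))
  simpa [hh] using h

/-- **The likelihood ratio order.** -/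
theorem hh_lr {D Y Z X : ℕ → ℝ} (R : Rel D Y Z X) (n : ℕ) :
    hh D Y Z X n * D (n + 1) ≤ hh D Y Z X (n + 1) * D n := by
  rcases (R.D0 n).eq_or_lt with h0 | hpos
  · rw [← h0, R.zD n h0.symm]
    simp
  · set ρ := D (n + 1) / D n with hρdef
    have hρ : 0 ≤ ρ := div_nonneg (R.D0 _) hpos.le
    have hn : D (n + 1) = ρ * D n := by
      rw [hρdef]; field_simp
    have hρD : ∀ l ≤ n, ρ * D l ≤ D (l + 1) := by
      intro l hl
      have h := R.DD l n hl
      rw [hρdef, div_mul_eq_mul_div, div_le_iff₀ hpos]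
      linarith
    have hposl : ∀ l ≤ n, 0 < D l := by
      intro l hl
      rcases (R.D0 l).eq_or_lt with hl0 | hl0
      · exfalso
        have : ∀ t, D (l + t) = 0 := by
          intro t
          induction t with
          | zero => exact hl0.symm
          | succ t ih => exact R.zD _ ih
        have h2 := this (n - l)
        rw [show l + (n - l) = n by omega] at h2
        linarith
      · exact hl0
    have hρY : ∀ l ≤ n, ρ * Y l ≤ Y (l + 1) := by
      intro l hl
      have h1 := hρD l hl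
      have h2 := R.DY l (l + 1) (Nat.le_succ l)
      have h3 := hposl l hl
      have h4 := R.Y0 l
      by_contra hcon
      push_neg at hcon
      nlinarith
    have h := lr_core R hρ hn hρD hρY
    have h' : ρ * hh D Y Z X n ≤ hh D Y Z X (n + 1) := by
      simp only [hh] at *
      linarith
    calc hh D Y Z X n * D (n + 1) = (ρ * hh D Y Z X n) * D n := by rw [hn]; ring
      _ ≤ hh D Y Z X (n + 1) * D n := mul_le_mul_of_nonneg_right h' hpos.le

end Pool.Agent.Helper16.I1
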