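import Pool.Agent.Helper16.I1.Main

/-!
(I1) in polynomial form, from consecutive relations.
-/

open Finset Polynomial

namespace Pool.Agent.Helper16.I1

/-- `Rel` from consecutive relations and the support pattern. -/
theorem Rel.ofConsec {D Y Z X : ℕ → ℝ} (L : ℕ)
    (D0 : ∀ m, 0 ≤ D m) (Y0 : ∀ m, 0 ≤ Y m) (Z0 : ∀ m, 0 ≤ Z m) (X0 : ∀ m, 0 ≤ X m)
    (posD : ∀ m, m ≤ L → 0 < D m) (zeroD : ∀ m, L < m → D m = 0)
    (posY : ∀ m, m ≤ L → 0 < Y m) (zeroY : ∀ m, L + 1 < m → Y m = 0)
    (zeroZ : ∀ m, L + 1 < m → Z m = 0) (zeroX : ∀ m, L + 2 < m → X m = 0)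
    (c1 : ∀ m, Y m * D (m + 1) ≤ D m * Y (m + 1))
    (c2 : ∀ m, D m * Y (m + 2) ≤ Y (m + 1) * D (m + 1))
    (r1 : ∀ m, X (m + 1) * D m ≤ Z (m + 1) * Y m)
    (r2 : ∀ m, X (m + 2) * D m ≤ Z (m + 1) * Y (m + 1)) : Rel D Y Z X where
  D0 := D0
  Y0 := Y0
  Z0 := Z0
  X0 := X0
  r1 := r1
  r2 := r2
  DD := by
    intro i l hil
    induction l, hil using Nat.le_induction with
    | base => rw [mul_comm]
    | succ l hl ih =>
      rcases Nat.lt_or_ge L (l + 2) with h | h
      · rw [zeroD (l + 1 + 1) h, mul_zero]
        exact mul_nonneg (D0 _) (D0 _)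
      · -- D (l+2) / D (l+1) ≤ D (l+1) / D l
        have hl0 := posD l (by omega)
        have hl1 := posD (l + 1) (by omega)
        have hl2 := posD (l + 2) (by omega)
        have hy1 := posY (l + 1) (by omega)
        have hy2 := posY (l + 2) (by omega)
        have e1 := c1 (l + 1)
        have e1' : Y (l + 1) * D (l + 2) ≤ D (l + 1) * Y (l + 2) := e1
        have e2 := c2 l
        -- D l * D (l+2) ≤ D (l+1)^2
        have h3 : D l * D (l + 2) ≤ D (l + 1) * D (l + 1) := by
          have : D l * D (l + 2) * Y (l + 1) ≤ D (l + 1) * D (l + 1) * Y (l + 1) := by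
            calc D l * D (l + 2) * Y (l + 1) = D l * (Y (l + 1) * D (l + 2)) := by ring
              _ ≤ D l * (D (l + 1) * Y (l + 2)) := mul_le_mul_of_nonneg_left e1' (D0 l)
              _ = D (l + 1) * (D l * Y (l + 2)) := by ring
              _ ≤ D (l + 1) * (Y (l + 1) * D (l + 1)) := mul_le_mul_of_nonneg_left e2 (D0 _)
              _ = D (l + 1) * D (l + 1) * Y (l + 1) := by ring
          exact le_of_mul_le_mul_right this hy1
        have h4 : D i * D (l + 2) * D l ≤ D (i + 1) * D (l + 1) * D l := by
          calc D i * D (l + 2) * D l = D i * (D l * D (l + 2)) := by ring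
            _ ≤ D i * (D (l + 1) * D (l + 1)) := mul_le_mul_of_nonneg_left h3 (D0 i)
            _ = (D i * D (l + 1)) * D (l + 1) := by ring
            _ ≤ (D (i + 1) * D l) * D (l + 1) := mul_le_mul_of_nonneg_right ih (D0 _)
            _ = D (i + 1) * D (l + 1) * D l := by ring
        exact le_of_mul_le_mul_right h4 hl0
  DY := by
    intro i l hil
    induction l, hil using Nat.le_induction with
    | base => rw [mul_comm]
    | succ l hl ih =>
      rcases Nat.lt_or_ge L (l + 1) with h | h
      · rw [zeroD (l + 1) h, mul_zero]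
        exact mul_nonneg (D0 _) (Y0 _)
      · have hl0 := posD l (by omega)
        have e1 := c1 l
        have h4 : Y i * D (l + 1) * D l ≤ D i * Y (l + 1) * D l := by
          calc Y i * D (l + 1) * D l = (Y i * D l) * D (l + 1) := by ring
            _ ≤ (D i * Y l) * D (l + 1) := mul_le_mul_of_nonneg_right ih (D0 _)
            _ = D i * (Y l * D (l + 1)) := by ring
            _ ≤ D i * (D l * Y (l + 1)) := mul_le_mul_of_nonneg_left e1 (D0 i)
            _ = D i * Y (l + 1) * D l := by ring
        exact le_of_mul_le_mul_right h4 hl0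
  YD := by
    intro i l hil
    induction l, hil using Nat.le_induction with
    | base => rw [mul_comm]
    | succ l hl ih =>
      rcases Nat.lt_or_ge L l with h | h
      · rw [zeroY (l + 1 + 1) (by omega), mul_zero]
        exact mul_nonneg (Y0 _) (D0 _)
      · have hl0 := posD l h
        have e2 := c2 l
        have h4 : D i * Y (l + 2) * D l ≤ Y (i + 1) * D (l + 1) * D l := by
          calc D i * Y (l + 2) * D l = D i * (D l * Y (l + 2)) := by ring
            _ ≤ D i * (Y (l + 1) * D (l + 1)) := mul_le_mul_of_nonneg_left e2 (D0 i)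
            _ = (D i * Y (l + 1)) * D (l + 1) := by ring
            _ ≤ (Y (i + 1) * D l) * D (l + 1) := mul_le_mul_of_nonneg_right ih (D0 _)
            _ = Y (i + 1) * D (l + 1) * D l := by ring
        exact le_of_mul_le_mul_right h4 hl0
  zD := by
    intro m hm
    rcases Nat.lt_or_ge L m with h | h
    · exact zeroD _ (by omega)
    · exact absurd hm (posD m h).ne'
  zY := by
    intro m hm
    rcases Nat.lt_or_ge L m with h | h
    · exact zeroY _ (by omega)
    · exact absurd hm (posD m h).ne'
  zZ := by
    intro m hm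
    rcases Nat.lt_or_ge L m with h | h
    · exact zeroZ _ (by omega)
    · exact absurd hm (posD m h).ne'
  zX := by
    intro m hm
    rcases Nat.lt_or_ge L m with h | h
    · exact zeroX _ (by omega)
    · exact absurd hm (posD m h).ne'

/-- All pairs. -/
theorem hh_lr_all {D Y Z X : ℕ → ℝ} (R : Rel D Y Z X) {i l : ℕ} (hil : i ≤ l) :
    hh D Y Z X i * D l ≤ hh D Y Z X l * D i := by
  induction l, hil using Nat.le_induction with
  | base => exact le_rfl
  | succ l hl ih =>
    rcases (R.D0 (l + 1)).eq_or_lt with h0 | hpos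
    · rw [← h0, mul_zero]
      exact mul_nonneg (hh_nonneg R l h0.symm) (R.D0 i)
    · have hlpos : 0 < D l := by
        rcases (R.D0 l).eq_or_lt with h1 | h1
        · have := R.zD l h1.symm
          linarith
        · exact h1
      have e := hh_lr R l
      have h4 : hh D Y Z X i * D (l + 1) * D l ≤ hh D Y Z X (l + 1) * D i * D l := by
        calc hh D Y Z X i * D (l + 1) * D l = (hh D Y Z X i * D l) * D (l + 1) := by ring
          _ ≤ (hh D Y Z X l * D i) * D (l + 1) := mul_le_mul_of_nonneg_right ih (R.D0 _)
          _ = (hh D Y Z X l * D (l + 1)) * D i := by ring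
          _ ≤ (hh D Y Z X (l + 1) * D l) * D i := mul_le_mul_of_nonneg_right e (R.D0 i)
          _ = hh D Y Z X (l + 1) * D i * D l := by ring
      exact le_of_mul_le_mul_right h4 hlpos

theorem coeff_mul_conv (p q : ℝ[X]) (n : ℕ) :
    (p * q).coeff n = conv (fun k => p.coeff k) (fun k => q.coeff k) n := by
  rw [mul_comm, Polynomial.coeff_mul, Finset.Nat.sum_antidiagonal_eq_sum_range_succ
    (fun a b => q.coeff a * p.coeff b)]
  rfl

theorem mul_derivative_eval (p : ℝ[X]) {M : ℕ} (hM : p.natDegree < M) (β : ℝ) :
    β * (derivative p).eval β = ∑ a ∈ range M, (a : ℝ) * p.coeff a * β ^ a := by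
  have h1 : β * (derivative p).eval β = (X * derivative p).eval β := by simp
  have hc : ∀ a : ℕ, (X * derivative p).coeff a = (a : ℝ) * p.coeff a := by
    intro a
    rcases a with _ | a
    · simp
    · rw [coeff_X_mul, coeff_derivative]
      push_cast
      ring
  have hd : (X * derivative p).natDegree < M := by
    refine lt_of_le_of_lt ?_ hM
    rw [natDegree_le_iff_coeff_eq_zero]
    intro N hN
    rw [hc, coeff_eq_zero_of_natDegree_lt hN, mul_zero]
  rw [h1, eval_eq_sum_range' hd]
  exact Finset.sum_congr rfl fun a _ => by rw [hc]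

/-- Ratio monotone from the coefficient likelihood ratio order. -/
theorem ratio_mono {K u : ℝ[X]} (h : ∀ i l, i ≤ l → K.coeff i * u.coeff l ≤ K.coeff l * u.coeff i)
    {β : ℝ} (hβ : 0 ≤ β) :
    0 ≤ (derivative K).eval β * u.eval β - K.eval β * (derivative u).eval β := by
  rcases hβ.eq_or_lt with h0 | hpos
  · rw [← h0]
    have e1 : (derivative K).eval 0 = K.coeff 1 := by
      rw [← coeff_zero_eq_eval_zero, coeff_derivative]; simp
    have e2 : (derivative u).eval 0 = u.coeff 1 := by
      rw [← coeff_zero_eq_eval_zero, coeff_derivative]; simp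
    rw [e1, e2, ← coeff_zero_eq_eval_zero, ← coeff_zero_eq_eval_zero]
    have := h 0 1 (by omega)
    linarith
  · set M := K.natDegree + u.natDegree + 1 with hM
    have hK := mul_derivative_eval K (M := M) (by omega) β
    have hu := mul_derivative_eval u (M := M) (by omega) β
    have hK' : K.eval β = ∑ a ∈ range M, K.coeff a * β ^ a := eval_eq_sum_range' (by omega) β
    have hu' : u.eval β = ∑ a ∈ range M, u.coeff a * β ^ a := eval_eq_sum_range' (by omega) β
    have key : β * ((derivative K).eval β * u.eval β - K.eval β * (derivative u).eval β)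
        = ∑ a ∈ range M, ∑ b ∈ range M, ((a : ℝ) - b) * (K.coeff a * u.coeff b) * β ^ (a + b) := by
      calc β * ((derivative K).eval β * u.eval β - K.eval β * (derivative u).eval β)
          = (β * (derivative K).eval β) * u.eval β - K.eval β * (β * (derivative u).eval β) := by ring
        _ = (∑ a ∈ range M, (a : ℝ) * K.coeff a * β ^ a) * (∑ b ∈ range M, u.coeff b * β ^ b)
            - (∑ a ∈ range M, K.coeff a * β ^ a) * (∑ b ∈ range M, (b : ℝ) * u.coeff b * β ^ b) := by
            rw [hK, hu, hK', hu']
        _ = _ := by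
            rw [Finset.sum_mul_sum, Finset.sum_mul_sum, ← Finset.sum_sub_distrib]
            refine Finset.sum_congr rfl fun a _ => ?_
            rw [← Finset.sum_sub_distrib]
            refine Finset.sum_congr rfl fun b _ => ?_
            rw [pow_add]
            ring
    have key2 : 2 * (β * ((derivative K).eval β * u.eval β - K.eval β * (derivative u).eval β))
        = ∑ a ∈ range M, ∑ b ∈ range M,
          ((a : ℝ) - b) * (K.coeff a * u.coeff b - K.coeff b * u.coeff a) * β ^ (a + b) := by
      have hswap : ∑ a ∈ range M, ∑ b ∈ range M, ((a : ℝ) - b) * (K.coeff a * u.coeff b) * β ^ (a + b)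
          = ∑ a ∈ range M, ∑ b ∈ range M, ((b : ℝ) - a) * (K.coeff b * u.coeff a) * β ^ (a + b) := by
        rw [Finset.sum_comm]
        refine Finset.sum_congr rfl fun a _ => Finset.sum_congr rfl fun b _ => ?_
        rw [add_comm b a]
      have key' := key.trans hswap
      rw [two_mul]
      calc _ = (∑ a ∈ range M, ∑ b ∈ range M, ((a : ℝ) - b) * (K.coeff a * u.coeff b) * β ^ (a + b))
            + ∑ a ∈ range M, ∑ b ∈ range M, ((b : ℝ) - a) * (K.coeff b * u.coeff a) * β ^ (a + b) :=
            congrArg₂ (· + ·) key key'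
        _ = _ := by
            rw [← Finset.sum_add_distrib]
            refine Finset.sum_congr rfl fun a _ => ?_
            rw [← Finset.sum_add_distrib]
            refine Finset.sum_congr rfl fun b _ => ?_
            ring
    have hnn : 0 ≤ ∑ a ∈ range M, ∑ b ∈ range M,
          ((a : ℝ) - b) * (K.coeff a * u.coeff b - K.coeff b * u.coeff a) * β ^ (a + b) := by
      refine Finset.sum_nonneg fun a _ => Finset.sum_nonneg fun b _ => ?_
      refine mul_nonneg ?_ (pow_nonneg hβ _)
      rcases le_total a b with hab | hab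
      · have h1 : ((a : ℝ) - b) ≤ 0 := by
          have : (a : ℝ) ≤ b := by exact_mod_cast hab
          linarith
        have h2 := h a b hab
        exact mul_nonneg_of_nonpos_of_nonpos h1 (by linarith)
      · have h1 : 0 ≤ ((a : ℝ) - b) := by
          have : (b : ℝ) ≤ a := by exact_mod_cast hab
          linarith
        have h2 := h b a hab
        exact mul_nonneg h1 (by linarith)
    rw [← key2] at hnn
    by_contra hcon
    push_neg at hcon
    have := mul_neg_of_pos_of_neg hpos hcon
    linarith

/-- **(I1)** for four consecutive coefficient polynomials `u, v, w, x` (in the order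
`u_(k+1), u_k, u_(k-1), u_(k-2)`). -/
theorem I1 {u v w x : ℝ[X]}
    (R : Rel (fun k => u.coeff k) (fun k => v.coeff k) (fun k => w.coeff k) (fun k => x.coeff k))
    {β : ℝ} (hβ : 0 ≤ β) :
    0 ≤ (derivative (v * w - u * x)).eval β * u.eval β
      - (v * w - u * x).eval β * (derivative u).eval β := by
  refine ratio_mono ?_ hβ
  intro i l hil
  have h := hh_lr_all R hil
  have e : ∀ n, (v * w - u * x).coeff n
      = hh (fun k => u.coeff k) (fun k => v.coeff k) (fun k => w.coeff k) (fun k => x.coeff k) n := by
    intro n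
    rw [coeff_sub, coeff_mul_conv, coeff_mul_conv]
    rfl
  rw [e, e]
  exact h

end Pool.Agent.Helper16.I1
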